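import Pool.Agent.Lib_helper17.FC.Perm
import Pool.Agent.Lib_helper63.FC.Reduction

/-!
# The order of a minimal contra pair

`G` is a finite simple cubic graph with an eulerian `(1,2)`-weight, given by the graph `W ≤ G` of
the edges of weight 1 (all degrees 0 or 2).  If this is a minimal contra pair then `G` has `2`
modulo `8` vertices.
-/

set_option autoImplicit false

namespace Pool.GOD.Old.OrderTwoModEight

variable {V : Type}

/-- `G` is cubic, `W ≤ G` and every vertex has degree 0 or 2 in `W` (eulerian `(1,2)`-weights). -/
def CubicPair (G W : SimpleGraph V) : Prop :=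
  W ≤ G ∧ (∀ v, (G.neighborSet v).ncard = 3) ∧
    ∀ v, (W.neighborSet v).ncard = 0 ∨ (W.neighborSet v).ncard = 2

/-- A faithful cover for the weight which is 1 on `W` and 2 on the other edges of `G`: a list of
closed walks that are cycles such that every edge of `W` is in exactly one of them and every other
edge of `G` in exactly two. -/
def HasCover [DecidableEq V] (G W : SimpleGraph V) : Prop :=
  ∃ L : List (Σ u : V, G.Walk u u), (∀ c ∈ L, c.2.IsCycle) ∧
    (∀ x y, W.Adj x y → L.countP (fun c => decide (s(x, y) ∈ c.2.edges)) = 1) ∧
    (∀ x y, G.Adj x y → ¬ W.Adj x y → L.countP (fun c => decide (s(x, y) ∈ c.2.edges)) = 2)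

/-- No edge of `H` is a bridge. -/
def Bridgeless (H : SimpleGraph V) : Prop := ∀ e ∈ H.edgeSet, ¬ H.IsBridge e

/-- The circuit `c` is removable: the support of the weight `w - χ_c`, which consists of all edges
of `G` except the edges of weight 1 on `c`, is bridgeless. -/
def Removable (G W : SimpleGraph V) {u : V} (c : G.Walk u u) : Prop :=
  Bridgeless (G.deleteEdges {e | e ∈ c.edges ∧ e ∈ W.edgeSet})

/-- Minimal contra pairs (for simple cubic graphs): `G` is bridgeless without faithful cover, no
circuit is removable, and deleting any edge of weight 2 gives a weighted graph with a faithful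
cover. -/
def MinContra [DecidableEq V] (G W : SimpleGraph V) : Prop :=
  CubicPair G W ∧ Bridgeless G ∧ ¬ HasCover G W ∧
    (∀ (u : V) (c : G.Walk u u), c.IsCycle → ¬ Removable G W c) ∧
    ∀ e ∈ G.edgeSet, e ∉ W.edgeSet → HasCover (G.deleteEdges {e}) W

/-- **Every minimal contra pair has `2` modulo `8` vertices.** -/
theorem result :
    ∀ (V : Type) [Fintype V] [DecidableEq V] (G W : SimpleGraph V), MinContra G W →
      Fintype.card V % 8 = 2 := by
  intro V _ _ G W h
  have hp : Pool.Agent.FC.PermPair G W := Pool.Agent.FC.reduction V G W h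
  exact Pool.Agent.FC.perm_mod8 hp h.2.2.1

end Pool.GOD.Old.OrderTwoModEight
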